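import Mathlib
import Pool.Agent.R47.DistMat

/-!
# A median graph with a diametral pair that extends to no triametral triple
-/

set_option autoImplicit false

namespace Pool.Agent.Results.MP_371ff7_co.MedianDiametralPair

variable {V : Type*}

/-- The interval `[u, v]`. -/
def interval (G : SimpleGraph V) (u v : V) : Set V := {x | G.dist u x + G.dist x v = G.dist u v}

/-- A median graph: connected, and any three intervals of a triple meet in one vertex. -/
def IsMedian (G : SimpleGraph V) : Prop :=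
  G.Connected ∧ ∀ u v w, ∃! x, x ∈ interval G u v ∧ x ∈ interval G u w ∧ x ∈ interval G v w

/-- `x, y` is a diametral pair. -/
def IsDiametral (G : SimpleGraph V) (x y : V) : Prop := ∀ u v, G.dist u v ≤ G.dist x y

/-- `d(u, v, w) = d(u, v) + d(u, w) + d(v, w)`. -/
noncomputable def dist3 (G : SimpleGraph V) (u v w : V) : ℕ :=
  G.dist u v + G.dist u w + G.dist v w

/-- `x, y, z` is a triametral triple. -/
def IsTriametral (G : SimpleGraph V) (x y z : V) : Prop := ∀ u v w, dist3 G u v w ≤ dist3 G x y z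

/-- Distance matrix of the example. -/
def D (u v : Fin 8) : ℕ :=
  (![![0, 1, 2, 1, 1, 2, 2, 2],
     ![1, 0, 1, 2, 2, 3, 1, 3],
     ![2, 1, 0, 1, 3, 4, 2, 2],
     ![1, 2, 1, 0, 2, 3, 3, 1],
     ![1, 2, 3, 2, 0, 1, 3, 3],
     ![2, 3, 4, 3, 1, 0, 4, 4],
     ![2, 1, 2, 3, 3, 4, 0, 4],
     ![2, 3, 2, 1, 3, 4, 4, 0]] : Fin 8 → Fin 8 → ℕ) u v

/-- The example. -/
def ex : SimpleGraph (Fin 8) where
  Adj u v := D u v = 1
  symm := ⟨by decide +kernel⟩
  loopless := ⟨by decide +kernel⟩

theorem ex_dist : ex.Preconnected ∧ ∀ u v, ex.dist u v = D u v := by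
  apply Pool.Agent.R47.DistMat.dist_eq
  · decide +kernel
  · show ∀ u v w, D v w = 1 → D u w ≤ D u v + 1
    decide +kernel
  · show ∀ u v, u ≠ v → ∃ w, D w v = 1 ∧ D u w + 1 = D u v
    decide +kernel

/-- There is a median graph with a diametral pair that extends to no triametral triple. -/
theorem result : ∃ (n : ℕ) (G : SimpleGraph (Fin n)), IsMedian G ∧
    ∃ x y, IsDiametral G x y ∧ ∀ z, ¬ IsTriametral G x y z := by
  obtain ⟨hc, hd⟩ := ex_dist
  refine ⟨8, ex, ⟨⟨hc⟩, ?_⟩, 5, 2, ?_, ?_⟩
  · simp only [interval, hd, Set.mem_ofPred_eq, ExistsUnique]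
    decide +kernel
  · intro u v
    simp only [hd]
    revert u v
    decide +kernel
  · intro z h
    have h1 := h 5 6 7
    simp only [dist3, hd] at h1
    clear h
    revert z
    decide +kernel

end Pool.Agent.Results.MP_371ff7_co.MedianDiametralPair
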